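import Pool.Agent.Q101.ConeS

set_option autoImplicit false

namespace Pool.Agent.Results.MP_5127fd_an.NormalOfS

variable {X : Type*} [NormedAddCommGroup X] [NormedSpace ℝ X]

/-- `C` is a closed cone: norm closed, closed under addition and under multiplication by
nonnegative scalars, and `C ∩ (-C) = {0}`. -/
structure IsClosedCone (C : Set X) : Prop where
  isClosed : IsClosed C
  add_mem : ∀ x ∈ C, ∀ y ∈ C, x + y ∈ C
  smul_mem : ∀ c : ℝ, 0 ≤ c → ∀ x ∈ C, c • x ∈ C
  pointed : C ∩ (-C) = {0}

/-- The order of the cone: `x ≤ y` iff `y - x ∈ C`. -/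
def Le (C : Set X) (x y : X) : Prop := y - x ∈ C

/-- The sequence `u` is increasing for the order of `C`. -/
def IsIncreasing (C : Set X) (u : ℕ → X) : Prop := ∀ n, Le C (u n) (u (n + 1))

/-- The sequence `u` is order bounded. -/
def IsOrderBounded (C : Set X) (u : ℕ → X) : Prop := ∃ a b, ∀ n, Le C a (u n) ∧ Le C (u n) b

/-- `s` is a supremum (least upper bound) of the sequence `u`. -/
def IsSupremum (C : Set X) (u : ℕ → X) (s : X) : Prop :=
  (∀ n, Le C (u n) s) ∧ ∀ t, (∀ n, Le C (u n) t) → Le C s t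

/-- Property (S): every increasing order bounded sequence has a supremum. -/
def PropertyS (C : Set X) : Prop :=
  ∀ u : ℕ → X, IsIncreasing C u → IsOrderBounded C u → ∃ s, IsSupremum C u s

/-- The cone `C` is normal. -/
def IsNormal (C : Set X) : Prop :=
  ∃ c : ℝ, 0 < c ∧ ∀ x y, Le C 0 x → Le C x y → ‖x‖ ≤ c * ‖y‖

/-- If an ordered Banach space has property (S), then its cone is normal. -/
theorem result {X : Type*} [NormedAddCommGroup X] [NormedSpace ℝ X] [CompleteSpace X]
    (C : Set X) (hC : IsClosedCone C) (hS : PropertyS C) : IsNormal C := by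
  obtain ⟨c, hc, h⟩ := Q101.ConeS.normal_of_S (C := C)
    ⟨hC.isClosed, hC.add_mem, hC.smul_mem, hC.pointed⟩ (fun u hu hb => hS u hu hb)
  refine ⟨c, hc, fun x y hx hxy => h x y ?_ hxy⟩
  have : x - 0 ∈ C := hx
  rwa [sub_zero] at this

end Pool.Agent.Results.MP_5127fd_an.NormalOfS
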